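import Pool.Agent.Helper62.HX.Stm
import Pool.Agent.Helper93.VX.Rk

/-! # The residue at a node of arbitrary thickness for any degree and any form (`H_RkN`) -/

set_option autoImplicit false

open Polynomial Matrix Finset

namespace Pool.Agent.Helper93.HX

open Pool.Agent.Helper62.BM Pool.Agent.Helper62.BW Pool.Agent.Helper62.BX Pool.Agent.Helper62.CX
open Pool.Agent.Helper62.VX Pool.Agent.Helper72.VX Pool.Agent.Helper62.HX Pool.Agent.Helper93.VX
open Pool.Agent.Helper12.BW (tay_inj tay_sub)

theorem exists_nuN {A : Type} [CommRing A] [IsDomain A] [CharZero A] {F : A[X][X]}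
    (hsepF : (F.map (algebraMap A[X] (FractionRing A[X]))).Separable) {t₀ x₀ : A} {f₁ : A[X]}
    (hNode : Node1 F t₀ x₀ f₁) :
    ∃ ν : ℕ, 0 < ν ∧ ∀ (P S u : A[X][X]) (w : A[X]),
      2 * (P * F + S * derivative F) =
        Polynomial.C ((X - Polynomial.C t₀) * (2 * w)) * u * dt F →
      (P.map (evalRingHom t₀)).eval x₀ =
        (ν : A) * (w.eval t₀ * (u.map (evalRingHom t₀)).eval x₀) := by
  obtain ⟨hF, hsep, hfx⟩ := hNode
  set h : A[X] := X - Polynomial.C x₀ with hh
  have hdh : derivative h = 1 := by rw [hh]; simp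
  have hhx : h.eval x₀ = 0 := by rw [hh]; simp
  have hder : (derivative F).map (evalRingHom t₀) = h * (2 * f₁ + h * derivative f₁) := by
    rw [← derivative_map, hF]
    simp only [derivative_mul, derivative_pow, hdh]
    norm_num
    rw [show (Polynomial.C (2 : A)) = (2 : A[X]) from map_ofNat _ 2]
    ring
  obtain ⟨s, hs0, hs⟩ := exists_root ((derivative F).map (mapRingHom (ps A))) (ps A t₀) (ps A x₀)
    (by rw [ev_map, hder]; simp [hhx])
    (by
      have e1 : ((derivative F).map (mapRingHom (ps A))).map (evalRingHom (ps A t₀)) =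
          ((derivative F).map (evalRingHom t₀)).map (ps A) := by
        have h : (evalRingHom (ps A t₀)).comp (mapRingHom (ps A)) =
            (ps A).comp (evalRingHom t₀) := by
          ext1
          · ext a
            simp
          · simp
        rw [Polynomial.map_map, h, ← Polynomial.map_map]
      rw [e1, derivative_map, eval_map_apply, hder]
      have e2 : (derivative (h * (2 * f₁ + h * derivative f₁))).eval x₀ = 2 * f₁.eval x₀ := by
        rw [derivative_mul, hdh]
        simp [hhx]
      rw [e2]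
      intro h0
      exact mul_ne_zero two_ne_zero hfx (ps_inj (by rw [h0, map_zero])))
  have hs' : Th t₀ s (derivative F) = 0 := hs
  have hφ := Th_ne hsepF t₀ s hs'
  have hφ0 : PowerSeries.constantCoeff (Th t₀ s F) = 0 := by
    rw [Th_const t₀ x₀ s hs0, hF]
    simp [hhx]
  obtain ⟨ν, hν, hres⟩ := res_one hφ hφ0
  refine ⟨ν, hν, fun P S u w hrel => ?_⟩
  have e1 := congrArg (Th t₀ s) hrel
  rw [map_mul, map_add, map_mul, map_mul, hs', mul_zero, add_zero, map_mul, map_mul,
    Th_C, map_ofNat] at e1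
  have e2 : Th t₀ s (dt F) = PowerSeries.derivative (FractionRing A) (Th t₀ s F) := by
    rw [Th_der, hs', zero_mul, add_zero]
  have e3 : tay (ps A t₀) (((X - Polynomial.C t₀) * (2 * w)).map (ps A)) =
      PowerSeries.X * (2 * tay (ps A t₀) (w.map (ps A))) := by
    rw [Polynomial.map_mul, Polynomial.map_mul, Polynomial.map_sub, Polynomial.map_X,
      Polynomial.map_C, map_mul, tay_sub, Polynomial.map_ofNat, map_mul, map_ofNat]
  rw [e2, e3] at e1
  have h2 : (2 : PowerSeries (FractionRing A)) ≠ 0 := by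
    intro h0
    have := congrArg PowerSeries.constantCoeff h0
    rw [map_ofNat, map_zero] at this
    exact two_ne_zero this
  have e4 : Th t₀ s P * Th t₀ s F =
      PowerSeries.X * (tay (ps A t₀) (w.map (ps A)) * Th t₀ s u) *
      PowerSeries.derivative (FractionRing A) (Th t₀ s F) := by
    apply mul_left_cancel₀ h2
    rw [e1]
    ring
  have e5 := hres _ _ e4
  rw [Th_const t₀ x₀ s hs0, map_mul, Th_const t₀ x₀ s hs0, tay_const, eval_map_apply,
    ← map_natCast (ps A), ← map_mul, ← map_mul] at e5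
  exact ps_inj e5

theorem h_rkN : H_RkN := by
  intro A _ _ _ N hN F hmon hdeg hsepF t₀ x₀ f₁ hNode
  obtain ⟨ν, hν, hres⟩ := exists_nuN hsepF hNode
  refine ⟨ν, hν, fun w u P S hPd hSd hrel => ?_⟩
  obtain ⟨hF, hsep, hfx⟩ := hNode
  have h2 : (2 : A) ≠ 0 := two_ne_zero
  have h2X : (2 : A[X]) ≠ 0 := two_ne_zero
  set h : A[X] := X - Polynomial.C x₀ with hh
  have hh0 : h ≠ 0 := X_sub_C_ne_zero x₀
  set e0 : A[X] →+* A := evalRingHom t₀ with he0
  set P₀ := P.map e0 with hP₀
  set S₀ := S.map e0 with hS₀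
  have hF0mon : (h ^ 2 * f₁).Monic := hF ▸ hmon.map e0
  have hf₁mon : f₁.Monic := Monic.of_mul_monic_left ((monic_X_sub_C x₀).pow 2) hF0mon
  have hhf : (h * f₁).Monic := (monic_X_sub_C x₀).mul hf₁mon
  have hhf0 : h * f₁ ≠ 0 := hhf.ne_zero
  have hdhf : (h * f₁).natDegree = N := by
    have e1 : (h ^ 2 * f₁).natDegree = N + 1 := by
      rw [← hF, hmon.natDegree_map, hdeg]
    rw [((monic_X_sub_C x₀).pow 2).natDegree_mul hf₁mon, (monic_X_sub_C x₀).natDegree_pow,
      natDegree_X_sub_C] at e1
    rw [(monic_X_sub_C x₀).natDegree_mul hf₁mon, natDegree_X_sub_C]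
    omega
  have hdh : derivative h = 1 := by rw [hh]; simp
  have hder : (derivative F).map e0 = h * (2 * f₁ + h * derivative f₁) := by
    rw [← derivative_map, hF]
    simp only [derivative_mul, derivative_pow, hdh]
    norm_num
    rw [show (Polynomial.C (2 : A)) = (2 : A[X]) from map_ofNat _ 2]
    ring
  -- the relation at `t₀`
  have hr0 : P₀ * (h * f₁) + S₀ * (2 * f₁ + h * derivative f₁) = 0 := by
    have e1 := congrArg (Polynomial.map e0) hrel
    simp only [Polynomial.map_mul, Polynomial.map_add, Polynomial.map_C, Polynomial.map_ofNat] at e1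
    have e2 : e0 ((X - Polynomial.C t₀) * (2 * w)) = 0 := by
      rw [he0]; simp
    rw [e2, map_zero, zero_mul, zero_mul, hF, hder] at e1
    have e3 : (2 * h) * (P₀ * (h * f₁) + S₀ * (2 * f₁ + h * derivative f₁)) = 0 := by
      rw [← e1]; ring
    exact (mul_eq_zero.1 e3).resolve_left (mul_ne_zero h2X hh0)
  -- `h f₁` divides `S₀`
  have hdvd : h * f₁ ∣ S₀ := by
    set ψ := algebraMap A (FractionRing A) with hψ
    have hinj : Function.Injective ψ := IsFractionRing.injective A (FractionRing A)
    rw [← Polynomial.map_dvd_map ψ hinj hhf]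
    have hmap : h.map ψ = X - Polynomial.C (ψ x₀) := by rw [hh]; simp
    have hc1 : IsCoprime (h.map ψ) (f₁.map ψ) := by
      rw [hmap]
      refine (irreducible_X_sub_C (ψ x₀)).coprime_iff_not_dvd.2 ?_
      rw [dvd_iff_isRoot, IsRoot.def, eval_map_apply]
      exact fun h0 => hfx (hinj (by rw [h0, map_zero]))
    have hc2 : IsCoprime (h.map ψ) ((2 * f₁ + h * derivative f₁).map ψ) := by
      have h3 : (2 * f₁ + h * derivative f₁).map ψ =
          Polynomial.C 2 * f₁.map ψ + (derivative f₁).map ψ * h.map ψ := by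
        simp only [Polynomial.map_add, Polynomial.map_mul, Polynomial.map_ofNat]
        rw [map_ofNat]; ring
      rw [h3]
      refine (IsCoprime.add_mul_right_right ?_ _)
      refine IsCoprime.mul_right ?_ hc1
      exact ⟨0, Polynomial.C 2⁻¹, by
        rw [zero_mul, zero_add, ← Polynomial.C_mul, inv_mul_cancel₀ two_ne_zero, Polynomial.C_1]⟩
    have hc3 : IsCoprime (f₁.map ψ) ((2 * f₁ + h * derivative f₁).map ψ) := by
      have h3 : (2 * f₁ + h * derivative f₁).map ψ =
          h.map ψ * derivative (f₁.map ψ) + 2 * f₁.map ψ := by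
        simp only [Polynomial.map_add, Polynomial.map_mul, Polynomial.map_ofNat, derivative_map]
        ring
      rw [h3]
      refine (IsCoprime.add_mul_right_right ?_ _)
      exact IsCoprime.mul_right hc1.symm hsep
    have hc4 : IsCoprime ((h * f₁).map ψ) ((2 * f₁ + h * derivative f₁).map ψ) := by
      rw [Polynomial.map_mul]; exact IsCoprime.mul_left hc2 hc3
    refine hc4.dvd_of_dvd_mul_right ?_
    rw [← Polynomial.map_mul]
    refine Polynomial.map_dvd ψ ?_
    exact ⟨-P₀, by linear_combination hr0⟩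
  obtain ⟨q, hq⟩ := hdvd
  have hqd : q.natDegree = 0 := by
    by_cases hq0 : q = 0
    · rw [hq0, natDegree_zero]
    have e1 : S₀.natDegree ≤ N := natDegree_map_le.trans hSd
    rw [hq, hhf.natDegree_mul' hq0, hdhf] at e1
    omega
  obtain ⟨c, hc⟩ : ∃ c : A, q = Polynomial.C c := ⟨q.coeff 0, eq_C_of_natDegree_eq_zero hqd⟩
  rw [hc] at hq
  have hPe : P₀ = -(Polynomial.C c * (2 * f₁ + h * derivative f₁)) := by
    have e1 : (h * f₁) * (P₀ + Polynomial.C c * (2 * f₁ + h * derivative f₁)) = 0 := by
      rw [hq] at hr0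
      linear_combination hr0
    have e2 := (mul_eq_zero.1 e1).resolve_left hhf0
    linear_combination e2
  -- the value at `(x₀, t₀)`
  have hhx : h.eval x₀ = 0 := by rw [hh]; simp
  have hpx : P₀.eval x₀ = -(c * (2 * f₁.eval x₀)) := by
    rw [hPe]
    simp [hhx]
  have hkey : P₀.eval x₀ = (ν : A) * (w.eval t₀ * (u.map e0).eval x₀) := hres _ _ _ _ hrel
  have hPS : (P + 2 * derivative S).map e0 = Polynomial.C c * (h * derivative f₁) := by
    rw [Polynomial.map_add, Polynomial.map_mul, Polynomial.map_ofNat, ← derivative_map, ← hP₀,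
      ← hS₀, hPe, hq]
    simp only [derivative_mul, hdh, derivative_C]
    ring
  rw [hPS]
  have e1 : 2 * f₁.eval x₀ * c = -((ν : A) * w.eval t₀ * (u.map e0).eval x₀) := by
    rw [hpx] at hkey
    linear_combination -hkey
  rw [← mul_assoc, ← Polynomial.C_mul, e1, Polynomial.C_neg, neg_mul]

end Pool.Agent.Helper93.HX
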