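import Pool.Agent.Helper62.HX.Stm
import Pool.Agent.Helper93.GX.HR

/-! # The Hasse-Witt functionals of a hyperelliptic curve of even degree are independent -/

set_option autoImplicit false

open Polynomial Matrix Finset

namespace Pool.Agent.Helper93.HX

open Pool.Agent.Helper62.BM Pool.Agent.Helper62.BW Pool.Agent.Helper62.HX

section

variable {K : Type} [Field K] (p : ℕ) [hp : Fact p.Prime] [CharP K p]

omit hp in
/-- the coefficients of a `p`-th power -/
theorem coeff_pow_char (G : K[X]) (n : ℕ) (hn : ¬ p ∣ n) : (G ^ p).coeff n = 0 := by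
  obtain ⟨m, rfl⟩ : ∃ m, n = m + 1 := by
    rcases Nat.eq_zero_or_pos n with h0 | h0
    · exact absurd (h0 ▸ dvd_zero p) hn
    · exact ⟨n - 1, by omega⟩
  have h1 : derivative (G ^ p) = 0 := by
    rw [derivative_pow, CharP.cast_eq_zero K p]
    simp
  have h2 := congrArg (fun Q : K[X] => Q.coeff m) h1
  simp only [coeff_derivative, coeff_zero] at h2
  refine (mul_eq_zero.1 h2).resolve_right fun h3 => hn ?_
  have h4 : ((m + 1 : ℕ) : K) = 0 := by
    push_cast
    exact h3
  exact (CharP.cast_eq_zero_iff K p _).1 h4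

/-- the residue vanishes on the second half of the basis -/
theorem lam_G {q g j : ℕ} (hpq : p = 2 * q + 1) (hgp : 2 * g + 2 < p) (hj : j < g) {G H : K[X]}
    (hGd : G.natDegree = g + 1) (hH : H.natDegree ≤ g) :
    (X ^ j * G * (G ^ 2 + H) ^ q).coeff (p * (g + 1) - 1) = 0 := by
  have hq1 : 1 ≤ q := by omega
  have hpg : p * (g + 1) = 2 * q * (g + 1) + (g + 1) := by rw [hpq]; ring
  have hFd : (G ^ 2 + H).natDegree ≤ 2 * g + 2 := by
    refine (natDegree_add_le _ _).trans (max_le ?_ ?_)
    · rw [natDegree_pow, hGd]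
      omega
    · omega
  have hGG : (G ^ 2).natDegree ≤ 2 * g + 2 := by
    rw [natDegree_pow, hGd]
    omega
  set Sg : K[X] := ∑ i ∈ range q, (G ^ 2 + H) ^ i * (G ^ 2) ^ (q - 1 - i) with hSg
  have h1 : (G ^ 2 + H) ^ q = (G ^ 2) ^ q + Sg * H := by
    have h2 := (Commute.all (G ^ 2 + H) (G ^ 2)).geom_sum₂_mul q
    rw [← hSg] at h2
    linear_combination -h2
  have hSgd : Sg.natDegree ≤ (2 * g + 2) * (q - 1) := by
    rw [hSg]
    refine natDegree_sum_le_of_forall_le _ _ fun i hi => ?_
    rw [mem_range] at hi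
    refine natDegree_mul_le.trans ?_
    have e1 : ((G ^ 2 + H) ^ i).natDegree ≤ i * (2 * g + 2) :=
      natDegree_pow_le.trans (Nat.mul_le_mul_left i hFd)
    have e2 : ((G ^ 2) ^ (q - 1 - i)).natDegree ≤ (q - 1 - i) * (2 * g + 2) :=
      natDegree_pow_le.trans (Nat.mul_le_mul_left _ hGG)
    refine (Nat.add_le_add e1 e2).trans ?_
    rw [← Nat.add_mul, Nat.mul_comm]
    exact Nat.mul_le_mul_left _ (by omega)
  have h3 : X ^ j * G * (G ^ 2 + H) ^ q = X ^ j * G ^ p + X ^ j * G * (Sg * H) := by
    rw [h1, hpq]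
    ring
  rw [h3, coeff_add]
  have h4 : (X ^ j * G ^ p : K[X]).coeff (p * (g + 1) - 1) = 0 := by
    rw [coeff_X_pow_mul']
    split_ifs with h5
    · refine coeff_pow_char p G _ fun hdvd => ?_
      have h6 : p ∣ p * (g + 1) - 1 - j + (1 + j) := by
        have h7 : p * (g + 1) - 1 - j + (1 + j) = p * (g + 1) := by omega
        rw [h7]
        exact dvd_mul_right _ _
      have h8 : p ∣ 1 + j := (Nat.dvd_add_right hdvd).1 h6
      have := Nat.le_of_dvd (by omega) h8
      omega
    · rfl
  have h5 : (X ^ j * G * (Sg * H)).coeff (p * (g + 1) - 1) = 0 := by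
    refine coeff_eq_zero_of_natDegree_lt ?_
    have e1 : (X ^ j * G * (Sg * H)).natDegree ≤ (j + (g + 1)) + ((2 * g + 2) * (q - 1) + g) := by
      refine natDegree_mul_le.trans (Nat.add_le_add ?_ ?_)
      · refine natDegree_mul_le.trans ?_
        rw [natDegree_X_pow, hGd]
      · exact natDegree_mul_le.trans (Nat.add_le_add hSgd hH)
    have e2 : (2 * g + 2) * (q - 1) + (2 * g + 2) = 2 * q * (g + 1) := by
      obtain ⟨r, rfl⟩ : ∃ r, q = r + 1 := ⟨q - 1, by omega⟩
      rw [Nat.add_sub_cancel]
      ring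
    omega
  rw [h4, h5, add_zero]

/-- the residue vanishes on the first half of the basis -/
theorem lam_X {q g j : ℕ} (hpq : p = 2 * q + 1) (hj : j < g) {F : K[X]}
    (hFd : F.natDegree ≤ 2 * g + 2) : (X ^ j * F ^ q).coeff (p * (g + 1) - 1) = 0 := by
  have hpg : p * (g + 1) = q * (2 * g + 2) + (g + 1) := by rw [hpq]; ring
  refine coeff_eq_zero_of_natDegree_lt ?_
  have e1 : (X ^ j * F ^ q).natDegree ≤ j + q * (2 * g + 2) := by
    refine natDegree_mul_le.trans (Nat.add_le_add ?_ ?_)
    · rw [natDegree_X_pow]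
    · exact natDegree_pow_le.trans (Nat.mul_le_mul_left q hFd)
  omega

/-- the residue of `x ^ g` -/
theorem lam_g {q g : ℕ} (hpq : p = 2 * q + 1) {F : K[X]} (hFm : F.Monic)
    (hFd : F.natDegree = 2 * g + 2) : (X ^ g * F ^ q).coeff (p * (g + 1) - 1) = 1 := by
  have hpg : p * (g + 1) = q * (2 * g + 2) + (g + 1) := by rw [hpq]; ring
  have hm : (X ^ g * F ^ q).Monic := (monic_X_pow g).mul (hFm.pow q)
  have hd : (X ^ g * F ^ q).natDegree = p * (g + 1) - 1 := by
    rw [(monic_X_pow g).natDegree_mul (hFm.pow q), natDegree_X_pow, hFm.natDegree_pow, hFd]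
    omega
  rw [← hd]
  exact hm.coeff_natDegree

end

theorem h_HWrank : H_HWrank := by
  intro K _ p _ _ g G H hg hgp hGm hGd hH hsep c hc
  have hp : p.Prime := Fact.out
  obtain ⟨q, hq⟩ : ∃ q, p = 2 * q + 1 := by
    rcases hp.eq_two_or_odd' with h2 | ⟨q, hq⟩
    · omega
    · exact ⟨q, hq⟩
  have hq2 : (p - 1) / 2 = q := by omega
  set F : K[X] := G ^ 2 + H with hF
  have hGGm : (G ^ 2).Monic := hGm.pow 2
  have hGGd : (G ^ 2).natDegree = 2 * g + 2 := by
    rw [hGm.natDegree_pow, hGd]
    ring
  have hHlt : H.degree < (G ^ 2).degree := by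
    rw [degree_eq_natDegree hGGm.ne_zero, hGGd]
    exact degree_le_natDegree.trans_lt (by exact_mod_cast (by omega : H.natDegree < 2 * g + 2))
  have hFm : F.Monic := hGGm.add_of_left hHlt
  have hFd : F.natDegree = 2 * g + 2 := by
    rw [hF, natDegree_add_eq_left_of_degree_lt hHlt, hGGd]
  set κ : K := ∑ i : Fin g, c i * (X ^ g * F ^ q).coeff (p * ((i : ℕ) + 1) - 1) with hκ
  let cn : ℕ → K := fun i => if h : i < g then c ⟨i, h⟩ else -κ
  have hcn : ∀ i : Fin g, cn i = c i := fun i => by
    simp only [cn, i.2, dif_pos, Fin.eta]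
  have hcg : cn g = -κ := by
    simp only [cn, lt_irrefl, dif_neg, not_false_eq_true]
  set P : K[X] := ∑ i ∈ range (g + 1), monomial (p * (g - i)) (cn i) with hP
  have hP' : derivative P = 0 := by
    rw [hP, derivative_sum]
    refine Finset.sum_eq_zero fun i _ => ?_
    rw [derivative_monomial]
    have : ((p * (g - i) : ℕ) : K) = 0 :=
      (CharP.cast_eq_zero_iff K p _).mpr (dvd_mul_right _ _)
    rw [this, mul_zero, monomial_zero_right]
  have hPd : P.natDegree + p ≤ p * (g + 1) := by
    have h1 : P.natDegree ≤ p * g := by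
      rw [hP]
      refine natDegree_sum_le_of_forall_le _ _ fun i _ => ?_
      refine (natDegree_monomial_le _).trans ?_
      exact Nat.mul_le_mul_left p (by omega)
    rw [Nat.mul_succ]
    omega
  -- the functional
  have hfun : ∀ u : K[X], (u * (F ^ q * P)).coeff (p * (g + 1) - 1) =
      (∑ i : Fin g, c i * (u * F ^ q).coeff (p * ((i : ℕ) + 1) - 1)) -
        κ * (u * F ^ q).coeff (p * (g + 1) - 1) := by
    intro u
    have h1 : ∀ i ∈ range (g + 1), (u * (F ^ q * monomial (p * (g - i)) (cn i))).coeff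
        (p * (g + 1) - 1) = cn i * (u * F ^ q).coeff (p * (i + 1) - 1) := by
      intro i hi
      rw [mem_range] at hi
      have h2 : u * (F ^ q * monomial (p * (g - i)) (cn i)) =
          C (cn i) * (X ^ (p * (g - i)) * (u * F ^ q)) := by
        rw [← C_mul_X_pow_eq_monomial]
        ring
      rw [h2, coeff_C_mul, coeff_X_pow_mul']
      have h3 : p * (g - i) + p * (i + 1) = p * (g + 1) := by
        rw [← mul_add]
        congr 1
        omega
      have h4 : 0 < p * (i + 1) := Nat.mul_pos hp.pos (Nat.succ_pos _)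
      rw [if_pos (by omega)]
      congr 2
      omega
    rw [hP, Finset.mul_sum, Finset.mul_sum, finsetSum_coeff, Finset.sum_congr rfl h1,
      Finset.sum_range_succ, hcg, Finset.sum_range]
    have h5 : ∀ i : Fin g, cn i * (u * F ^ q).coeff (p * ((i : ℕ) + 1) - 1) =
        c i * (u * F ^ q).coeff (p * ((i : ℕ) + 1) - 1) := fun i => by rw [hcn]
    rw [Finset.sum_congr rfl fun i _ => h5 i]
    ring
  have hbas : ∀ l : Fin (2 * g), (bE g G l * (F ^ q * P)).coeff (p * (g + 1) - 1) = 0 := by
    intro l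
    rw [hfun]
    have h1 := congrFun hc l
    rw [Matrix.vecMul, dotProduct] at h1
    simp only [YE, Matrix.of_apply, Pi.zero_apply, hq2] at h1
    rw [h1]
    have h2 : (bE g G l * F ^ q).coeff (p * (g + 1) - 1) = 0 := by
      rw [bE]
      split_ifs with h3
      · exact lam_X p hq h3 hFd.le
      · have h4 := l.2
        exact lam_G p hq hgp (by omega) hGd hH
    rw [h2, mul_zero, sub_zero]
  have hXg : (X ^ g * (F ^ q * P)).coeff (p * (g + 1) - 1) = 0 := by
    rw [hfun, lam_g p hq hFm hFd, ← hκ]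
    ring
  have hΛ : ∀ l, l < 2 * g + 1 → (X ^ l * (F ^ q * P)).coeff (p * (g + 1) - 1) = 0 := by
    intro l
    induction l using Nat.strong_induction_on with
    | _ l ih =>
      intro hl
      rcases lt_trichotomy l g with h1 | h1 | h1
      · have h2 := hbas ⟨l, by omega⟩
        rw [bE, if_pos h1] at h2
        exact h2
      · rw [h1]
        exact hXg
      · obtain ⟨j, rfl⟩ : ∃ j, l = j + (g + 1) := ⟨l - (g + 1), by omega⟩
        have h2 := hbas ⟨g + j, by omega⟩
        rw [bE, if_neg (by simp)] at h2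
        simp only [Nat.add_sub_cancel_left] at h2
        have h3 : (G : K[X]) = ∑ k ∈ range (g + 1), C (G.coeff k) * X ^ k + X ^ (g + 1) := by
          conv_lhs => rw [as_sum_range_C_mul_X_pow G, hGd, Finset.sum_range_succ]
          have h4 : G.coeff (g + 1) = 1 := by
            rw [← hGd]
            exact hGm.coeff_natDegree
          rw [h4, C_1, one_mul]
        have h5 : X ^ j * G * (F ^ q * P) =
            ∑ k ∈ range (g + 1), C (G.coeff k) * (X ^ (j + k) * (F ^ q * P)) +
              X ^ (j + (g + 1)) * (F ^ q * P) := by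
          conv_lhs => rw [h3]
          rw [mul_add, add_mul, Finset.mul_sum, Finset.sum_mul]
          congr 1
          · refine Finset.sum_congr rfl fun k _ => ?_
            rw [pow_add]
            ring
          · rw [pow_add (X : K[X]) j (g + 1)]
        rw [h5, coeff_add, finsetSum_coeff, Finset.sum_eq_zero, zero_add] at h2
        · exact h2
        · intro k hk
          rw [mem_range] at hk
          rw [coeff_C_mul, ih (j + k) (by omega) (by omega), mul_zero]
  have hP0 : P = 0 := by
    refine Pool.Agent.Helper93.GX.core (ι := Unit) p 2 q (2 * g + 1) (g + 1) 0 (fun _ => 1)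
      (fun _ => 2 * g + 2) hq (fun _ => ⟨one_pos, one_lt_two⟩) (by omega) ?_ ?_ (fun _ => F)
      (fun _ => hFd) ?_ P hP' hPd ?_
    · simp
      ring
    · simp
    · simpa using hsep
    · intro l hl
      have h1 := hΛ l hl
      simpa using h1
  funext i
  have h1 : P.coeff (p * (g - (i : ℕ))) = cn i := by
    rw [hP, finsetSum_coeff, Finset.sum_eq_single (i : ℕ)]
    · rw [coeff_monomial, if_pos rfl]
    · intro b hb hne
      rw [mem_range] at hb
      rw [coeff_monomial, if_neg]
      intro h
      apply hne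
      have h5 := Nat.eq_of_mul_eq_mul_left hp.pos h
      have := i.2
      omega
    · intro h
      exact absurd (mem_range.2 (by have := i.2; omega)) h
  rw [← hcn, ← h1, hP0, coeff_zero]
  rfl

end Pool.Agent.Helper93.HX
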